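import Pool.Agent.Lib.MP_df9110_gt.Bridge

/-! Uniqueness of `SO(2) × SO(3)`-invariant expanding solitons on `S¹ × ℝ³` with a prescribed
asymptotic cone. -/

namespace Pool.Agent.Results.MP_df9110_gt.InvariantUnique

open Pool.Agent.Lib.MP_df9110_gt

theorem result (A₁ B₁ f₁ A₂ B₂ f₂ : ℝ → ℝ) (a b : ℝ) (ha : 0 < a) (hb : 0 < b)
    (hb' : b ^ 2 < 1 / 2) (h₁ : IsInvariantExpander A₁ B₁ f₁ a b)
    (h₂ : IsInvariantExpander A₂ B₂ f₂ a b) :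
    A₁ = A₂ ∧ B₁ = B₂ ∧ ∃ c, ∀ t, f₁ t = f₂ t + c :=
  invariant_unique ha hb hb' h₁ h₂

end Pool.Agent.Results.MP_df9110_gt.InvariantUnique
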