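import Pool.Agent.Lib.MP_df9110_gt.All

/-! Two non-isometric expanding Ricci solitons on `ℝ⁴ = Int D⁴` with non-negative scalar
curvature that are asymptotic to the same cone of non-negative scalar curvature. -/

open Pool.Agent.Lib.MP_df9110_gt in
theorem Pool.Agent.Results.MP_df9110_gt.NonUnique.result :
    ∃ γ : Pt → Mat, IsCone γ ∧ (∀ y, y ≠ 0 → 0 ≤ Scal γ y) ∧
      ∃ (g₁ g₂ : Pt → Mat) (f₁ f₂ : Pt → ℝ), IsExpander g₁ f₁ γ ∧ IsExpander g₂ f₂ γ ∧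
        (∀ y, 0 ≤ Scal g₁ y) ∧ (∀ y, 0 ≤ Scal g₂ y) ∧ ¬Isometric g₁ g₂ :=
  mainS
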